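import Pool.Agent.Helper96.CM.Defs

/-!
# Sudakov lower bound for Rademacher sums on the cube, with concentration
-/

set_option autoImplicit false

namespace Pool.Agent.Helper11.LW

open Finset Pool.Agent.Helper5.RM Pool.Agent.Helper96.AF Pool.Agent.Helper96.CM

/-! ### weights -/

theorem exp_mono_sub {x y m : ℝ} (hx : |x| ≤ m) (hy : |y| ≤ m) :
    Real.exp (-m) * (x - y) ^ 2 ≤ (x - y) * (Real.exp x - Real.exp y) := by
  have key : ∀ u v : ℝ, -m ≤ v → v ≤ u → Real.exp (-m) * (u - v) ^ 2 ≤ (u - v) * (Real.exp u - Real.exp v) := by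
    intro u v hv huv
    have h1 : Real.exp u - Real.exp v = Real.exp v * (Real.exp (u - v) - 1) := by
      rw [mul_sub, ← Real.exp_add]; ring_nf
    have h2 : u - v ≤ Real.exp (u - v) - 1 := by linarith [Real.add_one_le_exp (u - v)]
    have h3 : Real.exp (-m) ≤ Real.exp v := Real.exp_le_exp.2 hv
    rw [h1]
    have h4 : Real.exp (-m) * (u - v) ≤ Real.exp v * (Real.exp (u - v) - 1) :=
      mul_le_mul h3 h2 (by linarith) (Real.exp_pos _).le
    nlinarith
  rcases le_total y x with h | h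
  · exact key x y (by linarith [neg_abs_le y]) h
  · have := key y x (by linarith [neg_abs_le x]) h
    nlinarith

theorem cov_ineq (J : Finset ℕ) (W a : ℕ → ℝ) (t m : ℝ) (hW : ∀ i ∈ J, 0 < W i) (hJ : J.Nonempty)
    (hm : ∀ i ∈ J, |t * a i| ≤ m) :
    Real.exp (-(2 * m)) * t ^ 2 * (∑ i ∈ J, ∑ j ∈ J, W i * W j * (a i - a j) ^ 2) / (2 * (∑ i ∈ J, W i) ^ 2) ≤
      t * ((∑ i ∈ J, W i * Real.exp (t * a i) * a i) / (∑ i ∈ J, W i * Real.exp (t * a i)) -
        (∑ i ∈ J, W i * a i) / ∑ i ∈ J, W i) := by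
  set Z := ∑ i ∈ J, W i with hZ
  set Z' := ∑ i ∈ J, W i * Real.exp (t * a i) with hZ'
  set A := ∑ i ∈ J, W i * a i with hA
  set A' := ∑ i ∈ J, W i * Real.exp (t * a i) * a i with hA'
  have hZpos : 0 < Z := Finset.sum_pos hW hJ
  have hZ'pos : 0 < Z' := Finset.sum_pos (fun i hi => mul_pos (hW i hi) (Real.exp_pos _)) hJ
  have hle : Z' ≤ Real.exp m * Z := by
    rw [hZ', hZ, Finset.mul_sum]
    refine Finset.sum_le_sum fun i hi => ?_
    rw [mul_comm]
    exact mul_le_mul_of_nonneg_right (Real.exp_le_exp.2 ((le_abs_self _).trans (hm i hi))) (hW i hi).le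
  set Q := ∑ i ∈ J, ∑ j ∈ J, W i * W j * (a i - a j) ^ 2 with hQ
  have hQ0 : 0 ≤ Q := Finset.sum_nonneg fun i hi => Finset.sum_nonneg fun j hj =>
    mul_nonneg (mul_nonneg (hW i hi).le (hW j hj).le) (sq_nonneg _)
  have h1 : 2 * (A' * Z - A * Z') = ∑ i ∈ J, ∑ j ∈ J, W i * W j * ((a i - a j) * (Real.exp (t * a i) - Real.exp (t * a j))) := by
    have e1 : A' * Z = ∑ i ∈ J, ∑ j ∈ J, W i * W j * (a i * Real.exp (t * a i)) := by
      rw [hA', hZ, Finset.sum_mul_sum]
      exact Finset.sum_congr rfl fun i _ => Finset.sum_congr rfl fun j _ => by ring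
    have e2 : A' * Z = ∑ i ∈ J, ∑ j ∈ J, W i * W j * (a j * Real.exp (t * a j)) := by
      rw [e1, Finset.sum_comm]
      exact Finset.sum_congr rfl fun i _ => Finset.sum_congr rfl fun j _ => by ring
    have e3 : A * Z' = ∑ i ∈ J, ∑ j ∈ J, W i * W j * (a i * Real.exp (t * a j)) := by
      rw [hA, hZ', Finset.sum_mul_sum]
      exact Finset.sum_congr rfl fun i _ => Finset.sum_congr rfl fun j _ => by ring
    have e4 : A * Z' = ∑ i ∈ J, ∑ j ∈ J, W i * W j * (a j * Real.exp (t * a i)) := by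
      rw [e3, Finset.sum_comm]
      exact Finset.sum_congr rfl fun i _ => Finset.sum_congr rfl fun j _ => by ring
    have e5 : 2 * (A' * Z - A * Z') = A' * Z + A' * Z - A * Z' - A * Z' := by ring
    rw [e5]
    nth_rewrite 1 [e1]
    nth_rewrite 1 [e2]
    nth_rewrite 1 [e3]
    nth_rewrite 1 [e4]
    rw [← Finset.sum_add_distrib, ← Finset.sum_sub_distrib, ← Finset.sum_sub_distrib]
    refine Finset.sum_congr rfl fun i _ => ?_
    rw [← Finset.sum_add_distrib, ← Finset.sum_sub_distrib, ← Finset.sum_sub_distrib]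
    exact Finset.sum_congr rfl fun j _ => by ring
  have h2 : Real.exp (-m) * t ^ 2 * Q ≤ t * (2 * (A' * Z - A * Z')) := by
    rw [h1, hQ, Finset.mul_sum, Finset.mul_sum]
    refine Finset.sum_le_sum fun i hi => ?_
    rw [Finset.mul_sum, Finset.mul_sum]
    refine Finset.sum_le_sum fun j hj => ?_
    have h3 := exp_mono_sub (hm i hi) (hm j hj)
    have h4 : 0 ≤ W i * W j := mul_nonneg (hW i hi).le (hW j hj).le
    have h5 := mul_le_mul_of_nonneg_left h3 h4
    have e1 : Real.exp (-m) * t ^ 2 * (W i * W j * (a i - a j) ^ 2) = W i * W j * (Real.exp (-m) * (t * a i - t * a j) ^ 2) := by ring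
    have e2 : t * (W i * W j * ((a i - a j) * (Real.exp (t * a i) - Real.exp (t * a j)))) =
      W i * W j * ((t * a i - t * a j) * (Real.exp (t * a i) - Real.exp (t * a j))) := by ring
    rw [e1, e2]
    exact h5
  have h3 : t * (A' / Z' - A / Z) = t * (2 * (A' * Z - A * Z')) / (2 * Z * Z') := by
    field_simp
  rw [h3, div_le_div_iff₀ (by positivity) (by positivity)]
  have h6 : Real.exp (-(2 * m)) * Real.exp m = Real.exp (-m) := by rw [← Real.exp_add]; congr 1; ring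
  have h7 : Real.exp (-(2 * m)) * t ^ 2 * Q * (2 * Z * Z') ≤ Real.exp (-(2 * m)) * t ^ 2 * Q * (2 * Z * (Real.exp m * Z)) := by
    apply mul_le_mul_of_nonneg_left _ (by positivity)
    exact mul_le_mul_of_nonneg_left hle (by positivity)
  have h8 : Real.exp (-(2 * m)) * t ^ 2 * Q * (2 * Z * (Real.exp m * Z)) = (Real.exp (-m) * t ^ 2 * Q) * (2 * Z ^ 2) := by
    rw [← h6]; ring
  have h9 : (Real.exp (-m) * t ^ 2 * Q) * (2 * Z ^ 2) ≤ t * (2 * (A' * Z - A * Z')) * (2 * Z ^ 2) :=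
    mul_le_mul_of_nonneg_right h2 (by positivity)
  linarith

/-! ### flips -/

theorem sg_fl_self (T : Finset ℕ) (p : ℕ) : sg (fl p T) p = - sg T p := by
  unfold sg fl
  by_cases h : p ∈ T
  · rw [if_neg, if_pos h]
    · norm_num
    · rw [Finset.mem_symmDiff, Finset.mem_singleton]
      tauto
  · rw [if_pos, if_neg h]
    rw [Finset.mem_symmDiff, Finset.mem_singleton]
    tauto

theorem sg_fl_ne {T : Finset ℕ} {p q : ℕ} (h : q ≠ p) : sg (fl p T) q = sg T q := by
  apply sg_congr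
  unfold fl
  rw [Finset.mem_symmDiff, Finset.mem_singleton]
  tauto

theorem fl_fl' (p : ℕ) (T : Finset ℕ) : fl p (fl p T) = T := by
  unfold fl
  rw [symmDiff_assoc, symmDiff_self]
  exact symmDiff_bot T

theorem fl_subset' {p : ℕ} {Q T : Finset ℕ} (hp : p ∈ Q) (hT : T ⊆ Q) : fl p T ⊆ Q := by
  intro x hx
  unfold fl at hx
  rw [Finset.mem_symmDiff, Finset.mem_singleton] at hx
  rcases hx with ⟨h, _⟩ | ⟨rfl, _⟩
  · exact hT h
  · exact hp

theorem av_flip {Q : Finset ℕ} {p : ℕ} (hp : p ∈ Q) (F : Finset ℕ → ℝ) :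
    av Q (fun T => F (fl p T)) = av Q F := by
  unfold av
  congr 1
  refine Finset.sum_bij' (fun T _ => fl p T) (fun T _ => fl p T) ?_ ?_ ?_ ?_ ?_
  · intro T hT
    exact Finset.mem_powerset.2 (fl_subset' hp (Finset.mem_powerset.1 hT))
  · intro T hT
    exact Finset.mem_powerset.2 (fl_subset' hp (Finset.mem_powerset.1 hT))
  · intro T _
    exact fl_fl' p T
  · intro T _
    exact fl_fl' p T
  · intro T _
    rfl

/-! ### the sums -/

/-- the random sums -/
noncomputable def SS (S : Finset ℕ) (a : ℕ → ℕ → ℝ) (T : Finset ℕ) (i : ℕ) : ℝ := ∑ p ∈ S, sg T p * a i p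

/-- the partition function -/
noncomputable def ZZ (S J : Finset ℕ) (a : ℕ → ℕ → ℝ) (b : ℝ) (T : Finset ℕ) : ℝ := ∑ i ∈ J, Real.exp (b * SS S a T i)

/-- the Gibbs weights -/
noncomputable def gw (S J : Finset ℕ) (a : ℕ → ℕ → ℝ) (b : ℝ) (T : Finset ℕ) (i : ℕ) : ℝ :=
  Real.exp (b * SS S a T i) / ZZ S J a b T

/-- the free energy -/
noncomputable def FE (S J : Finset ℕ) (a : ℕ → ℕ → ℝ) (b : ℝ) (T : Finset ℕ) : ℝ := Real.log (ZZ S J a b T) / b

theorem SS_fl {S : Finset ℕ} (a : ℕ → ℕ → ℝ) (T : Finset ℕ) (i : ℕ) {p : ℕ} (hp : p ∈ S) :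
    SS S a (fl p T) i = SS S a T i + (-2 * sg T p) * a i p := by
  unfold SS
  rw [← Finset.add_sum_erase S _ hp, ← Finset.add_sum_erase S (fun q => sg T q * a i q) hp, sg_fl_self]
  have h1 : ∑ x ∈ S.erase p, sg (fl p T) x * a i x = ∑ x ∈ S.erase p, sg T x * a i x :=
    Finset.sum_congr rfl fun x hx => by rw [sg_fl_ne (Finset.ne_of_mem_erase hx)]
  rw [h1]
  ring

theorem ZZ_pos {S J : Finset ℕ} (a : ℕ → ℕ → ℝ) (b : ℝ) (T : Finset ℕ) (hJ : J.Nonempty) : 0 < ZZ S J a b T :=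
  Finset.sum_pos (fun _ _ => Real.exp_pos _) hJ

theorem gw_pos {S J : Finset ℕ} (a : ℕ → ℕ → ℝ) (b : ℝ) (T : Finset ℕ) (hJ : J.Nonempty) (i : ℕ) : 0 < gw S J a b T i :=
  div_pos (Real.exp_pos _) (ZZ_pos a b T hJ)

theorem gw_sum {S J : Finset ℕ} (a : ℕ → ℕ → ℝ) (b : ℝ) (T : Finset ℕ) (hJ : J.Nonempty) : ∑ i ∈ J, gw S J a b T i = 1 := by
  unfold gw
  rw [← Finset.sum_div]
  exact div_self (ZZ_pos a b T hJ).ne'

theorem SS_le_FE {S J : Finset ℕ} (a : ℕ → ℕ → ℝ) {b : ℝ} (hb : 0 < b) (T : Finset ℕ) {i : ℕ} (hi : i ∈ J) :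
    SS S a T i ≤ FE S J a b T := by
  unfold FE
  rw [le_div_iff₀ hb, mul_comm]
  rw [Real.le_log_iff_exp_le (ZZ_pos a b T ⟨i, hi⟩)]
  exact Finset.single_le_sum (f := fun i => Real.exp (b * SS S a T i)) (fun _ _ => (Real.exp_pos _).le) hi

theorem av_SS {S : Finset ℕ} (a : ℕ → ℕ → ℝ) (i : ℕ) : av S (fun T => SS S a T i) = 0 := by
  unfold SS
  rw [av_sum]
  refine Finset.sum_eq_zero fun p hp => ?_
  have h1 : av S (fun T => sg (fl p T) p * a i p) = av S (fun T => sg T p * a i p) :=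
    av_flip hp (fun T => sg T p * a i p)
  have h2 : av S (fun T => sg (fl p T) p * a i p) = av S (fun T => (-1) * (sg T p * a i p)) :=
    av_congr fun T _ => by rw [sg_fl_self]; ring
  rw [h2, av_mul_left] at h1
  linarith

/-! ### the Gibbs part -/

/-- one prime -/
theorem one_p {S J : Finset ℕ} {a : ℕ → ℕ → ℝ} {b : ℝ} (hb : 0 < b) (hJ : J.Nonempty) {p : ℕ} (hp : p ∈ S)
    (hm : ∀ i ∈ J, b * |a i p| ≤ 1 / 100) :
    b / 4 * av S (fun T => ∑ i ∈ J, ∑ j ∈ J, gw S J a b T i * gw S J a b T j * (a i p - a j p) ^ 2) ≤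
      av S (fun T => sg T p * ∑ i ∈ J, gw S J a b T i * a i p) := by
  have h1 : av S (fun T => sg T p * ∑ i ∈ J, gw S J a b T i * a i p) =
      av S (fun T => 1 / 2 * (sg T p * (∑ i ∈ J, gw S J a b T i * a i p - ∑ i ∈ J, gw S J a b (fl p T) i * a i p))) := by
    have h2 := av_flip hp (fun T => sg T p * ∑ i ∈ J, gw S J a b T i * a i p)
    have h3 : av S (fun T => 1 / 2 * (sg T p * (∑ i ∈ J, gw S J a b T i * a i p - ∑ i ∈ J, gw S J a b (fl p T) i * a i p))) =
        av S (fun T => 1 / 2 * (sg T p * ∑ i ∈ J, gw S J a b T i * a i p) +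
          1 / 2 * (sg (fl p T) p * ∑ i ∈ J, gw S J a b (fl p T) i * a i p)) :=
      av_congr fun T _ => by rw [sg_fl_self]; ring
    rw [h3, av_add, av_mul_left, av_mul_left, h2]
    ring
  rw [h1, ← av_mul_left]
  refine av_mono fun T _ => ?_
  set t : ℝ := -2 * b * sg T p with ht
  have hsg := sg_mul_self T p
  have hbound : ∀ i ∈ J, |t * a i p| ≤ 1 / 50 := by
    intro i hi
    rw [ht, abs_mul, abs_mul, abs_sg, mul_one, abs_mul, abs_of_pos hb]
    norm_num
    linarith [hm i hi]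
  have hcov := cov_ineq J (fun i => Real.exp (b * SS S a T i)) (fun i => a i p) t (1 / 50)
    (fun _ _ => Real.exp_pos _) hJ hbound
  have hZ : ∑ i ∈ J, Real.exp (b * SS S a T i) = ZZ S J a b T := rfl
  have hexp : ∀ i, Real.exp (b * SS S a T i) * Real.exp (t * a i p) = Real.exp (b * SS S a (fl p T) i) := by
    intro i
    rw [SS_fl a T i hp, ← Real.exp_add]
    congr 1
    rw [ht]; ring
  simp only [hexp] at hcov
  have hZ' : ∑ i ∈ J, Real.exp (b * SS S a (fl p T) i) = ZZ S J a b (fl p T) := rfl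
  rw [hZ, hZ'] at hcov
  have e1 : (∑ i ∈ J, Real.exp (b * SS S a (fl p T) i) * a i p) / ZZ S J a b (fl p T) =
      ∑ i ∈ J, gw S J a b (fl p T) i * a i p := by
    rw [Finset.sum_div]
    exact Finset.sum_congr rfl fun i _ => by unfold gw; ring
  have e2 : (∑ i ∈ J, Real.exp (b * SS S a T i) * a i p) / ZZ S J a b T =
      ∑ i ∈ J, gw S J a b T i * a i p := by
    rw [Finset.sum_div]
    exact Finset.sum_congr rfl fun i _ => by unfold gw; ring
  have e3 : (∑ i ∈ J, ∑ j ∈ J, Real.exp (b * SS S a T i) * Real.exp (b * SS S a T j) * (a i p - a j p) ^ 2) =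
      (∑ i ∈ J, ∑ j ∈ J, gw S J a b T i * gw S J a b T j * (a i p - a j p) ^ 2) * ZZ S J a b T ^ 2 := by
    rw [Finset.sum_mul]
    refine Finset.sum_congr rfl fun i _ => ?_
    rw [Finset.sum_mul]
    refine Finset.sum_congr rfl fun j _ => ?_
    unfold gw
    have := (ZZ_pos (S := S) a b T hJ).ne'
    field_simp
  rw [e1, e2, e3] at hcov
  set V := ∑ i ∈ J, ∑ j ∈ J, gw S J a b T i * gw S J a b T j * (a i p - a j p) ^ 2 with hV
  have hV0 : 0 ≤ V := Finset.sum_nonneg fun i _ => Finset.sum_nonneg fun j _ =>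
    mul_nonneg (mul_nonneg (gw_pos a b T hJ i).le (gw_pos a b T hJ j).le) (sq_nonneg _)
  have e4 : Real.exp (-(2 * (1 / 50))) * t ^ 2 * (V * ZZ S J a b T ^ 2) / (2 * ZZ S J a b T ^ 2) =
      Real.exp (-(2 * (1 / 50))) * (2 * b ^ 2) * V := by
    have := (ZZ_pos (S := S) a b T hJ).ne'
    have ht2 : t ^ 2 = 4 * b ^ 2 := by
      rw [ht]
      calc (-2 * b * sg T p) ^ 2 = 4 * b ^ 2 * (sg T p * sg T p) := by ring
        _ = 4 * b ^ 2 := by rw [hsg, mul_one]
    rw [ht2]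
    field_simp
    ring
  rw [e4] at hcov
  have hex : (1 : ℝ) / 2 ≤ Real.exp (-(2 * (1 / 50))) := by
    have := Real.add_one_le_exp (-(2 * (1 / 50)) : ℝ)
    linarith
  have e5 : t * (∑ i ∈ J, gw S J a b (fl p T) i * a i p - ∑ i ∈ J, gw S J a b T i * a i p) =
      2 * b * (sg T p * (∑ i ∈ J, gw S J a b T i * a i p - ∑ i ∈ J, gw S J a b (fl p T) i * a i p)) := by
    rw [ht]; ring
  rw [e5] at hcov
  have h9 : b ^ 2 * V ≤ 2 * b * (sg T p * (∑ i ∈ J, gw S J a b T i * a i p - ∑ i ∈ J, gw S J a b (fl p T) i * a i p)) := by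
    refine le_trans ?_ hcov
    have : 0 ≤ b ^ 2 * V := by positivity
    nlinarith
  have h10 : b * (b / 2 * V) ≤ b * (sg T p * (∑ i ∈ J, gw S J a b T i * a i p - ∑ i ∈ J, gw S J a b (fl p T) i * a i p)) := by
    nlinarith
  have h11 := le_of_mul_le_mul_left h10 hb
  linarith

/-- the sum of the squares of the weights -/
noncomputable def qw (S J : Finset ℕ) (a : ℕ → ℕ → ℝ) (b : ℝ) (T : Finset ℕ) : ℝ := ∑ i ∈ J, gw S J a b T i ^ 2

theorem gibbs_low {S J : Finset ℕ} {a : ℕ → ℕ → ℝ} {b D : ℝ} {F : Finset ℕ → ℝ} (hb : 0 < b) (hJ : J.Nonempty)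
    (hD : ∀ i ∈ J, ∀ j ∈ J, i ≠ j → D ^ 2 ≤ ∑ p ∈ S, (a i p - a j p) ^ 2)
    (hm : ∀ i ∈ J, ∀ p ∈ S, b * |a i p| ≤ 1 / 100) (hF : ∀ T ⊆ S, ∀ i ∈ J, SS S a T i ≤ F T) :
    b * D ^ 2 / 4 * (1 - av S (qw S J a b)) ≤ av S F := by
  have h1 : av S (fun T => ∑ i ∈ J, gw S J a b T i * SS S a T i) ≤ av S F := by
    refine av_mono fun T hT => ?_
    calc ∑ i ∈ J, gw S J a b T i * SS S a T i ≤ ∑ i ∈ J, gw S J a b T i * F T :=
          Finset.sum_le_sum fun i hi => mul_le_mul_of_nonneg_left (hF T hT i hi) (gw_pos a b T hJ i).le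
      _ = F T := by rw [← Finset.sum_mul, gw_sum a b T hJ, one_mul]
  refine le_trans ?_ h1
  have h2 : av S (fun T => ∑ i ∈ J, gw S J a b T i * SS S a T i) =
      ∑ p ∈ S, av S (fun T => sg T p * ∑ i ∈ J, gw S J a b T i * a i p) := by
    rw [← av_sum]
    refine av_congr fun T _ => ?_
    unfold SS
    simp only [Finset.mul_sum]
    rw [Finset.sum_comm]
    exact Finset.sum_congr rfl fun p _ => Finset.sum_congr rfl fun i _ => by ring
  rw [h2]
  refine le_trans ?_ (Finset.sum_le_sum fun p hp => one_p hb hJ hp fun i hi => hm i hi p hp)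
  rw [← Finset.mul_sum, ← av_sum]
  have h3 : av S (fun T => D ^ 2 * (1 - qw S J a b T)) ≤ av S (fun T => ∑ p ∈ S, ∑ i ∈ J, ∑ j ∈ J,
      gw S J a b T i * gw S J a b T j * (a i p - a j p) ^ 2) := by
    refine av_mono fun T _ => ?_
    have h4 : ∑ p ∈ S, ∑ i ∈ J, ∑ j ∈ J, gw S J a b T i * gw S J a b T j * (a i p - a j p) ^ 2 =
        ∑ i ∈ J, ∑ j ∈ J, gw S J a b T i * gw S J a b T j * ∑ p ∈ S, (a i p - a j p) ^ 2 := by
      rw [Finset.sum_comm]
      refine Finset.sum_congr rfl fun i _ => ?_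
      rw [Finset.sum_comm]
      exact Finset.sum_congr rfl fun j _ => by rw [Finset.mul_sum]
    rw [h4]
    have h5 : D ^ 2 * (1 - qw S J a b T) = ∑ i ∈ J, ∑ j ∈ J, gw S J a b T i * gw S J a b T j * (if i = j then 0 else D ^ 2) := by
      have h6 : ∀ i ∈ J, ∑ j ∈ J, gw S J a b T i * gw S J a b T j * (if i = j then 0 else D ^ 2) =
          D ^ 2 * (gw S J a b T i - gw S J a b T i ^ 2) := by
        intro i hi
        have h7 : ∀ j ∈ J, gw S J a b T i * gw S J a b T j * (if i = j then 0 else D ^ 2) =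
            D ^ 2 * gw S J a b T i * gw S J a b T j - (if i = j then D ^ 2 * gw S J a b T i * gw S J a b T j else 0) := by
          intro j _
          split_ifs <;> ring
        rw [Finset.sum_congr rfl h7, Finset.sum_sub_distrib, ← Finset.mul_sum, gw_sum a b T hJ, Finset.sum_ite_eq, if_pos hi]
        ring
      rw [Finset.sum_congr rfl h6, ← Finset.mul_sum, Finset.sum_sub_distrib, gw_sum a b T hJ]
      rfl
    rw [h5]
    refine Finset.sum_le_sum fun i hi => Finset.sum_le_sum fun j hj => ?_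
    apply mul_le_mul_of_nonneg_left _ (mul_nonneg (gw_pos a b T hJ i).le (gw_pos a b T hJ j).le)
    split_ifs with hij
    · exact Finset.sum_nonneg fun _ _ => sq_nonneg _
    · exact hD i hi j hj hij
  have h8 : av S (fun T => D ^ 2 * (1 - qw S J a b T)) = D ^ 2 * (1 - av S (qw S J a b)) := by
    rw [av_mul_left]
    congr 1
    have : av S (fun T => 1 - qw S J a b T) = av S (fun T => 1 + (-1) * qw S J a b T) :=
      av_congr fun T _ => by ring
    rw [this, av_add, av_const, av_mul_left]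
    ring
  rw [h8] at h3
  calc b * D ^ 2 / 4 * (1 - av S (qw S J a b)) = b / 4 * (D ^ 2 * (1 - av S (qw S J a b))) := by ring
    _ ≤ _ := mul_le_mul_of_nonneg_left h3 (by positivity)

end Pool.Agent.Helper11.LW
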