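import Pool.Agent.Helper66.LW.Basic

/-!
# Project LW, tools for the blocks L1, L2
-/

set_option autoImplicit false

namespace Pool.Agent.Helper66.LW

open Finset MeasureTheory Pool.Agent.Helper5.RM Pool.Agent.Helper96.AF

/-- Cauchy-Schwarz with a weight -/
theorem cs_weight {α : Type*} [MeasurableSpace α] {μ : Measure α} {f k : α → ℝ} (hk : ∀ x, 0 ≤ k x)
    (hk1 : Integrable k μ) (h1 : Integrable (fun x => f x * k x) μ)
    (h2 : Integrable (fun x => f x ^ 2 * k x) μ) :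
    (∫ x, f x * k x ∂μ) ^ 2 ≤ (∫ x, k x ∂μ) * ∫ x, f x ^ 2 * k x ∂μ := by
  have key : ∀ c : ℝ, 0 ≤ (∫ x, k x ∂μ) * (c * c) + (-2 * ∫ x, f x * k x ∂μ) * c +
      ∫ x, f x ^ 2 * k x ∂μ := by
    intro c
    have h3 : 0 ≤ ∫ x, (f x - c) ^ 2 * k x ∂μ :=
      integral_nonneg fun x => mul_nonneg (sq_nonneg _) (hk x)
    have h4 : ∫ x, (f x - c) ^ 2 * k x ∂μ = (∫ x, f x ^ 2 * k x ∂μ) -
        (∫ x, (2 * c) * (f x * k x) ∂μ) + ∫ x, c ^ 2 * k x ∂μ := by
      have h5 : Integrable (fun x => f x ^ 2 * k x - (2 * c) * (f x * k x)) μ := h2.sub (h1.const_mul _)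
      rw [← integral_sub h2 (h1.const_mul _), ← integral_add h5 (hk1.const_mul _)]
      congr 1; funext x; ring
    rw [integral_const_mul, integral_const_mul] at h4
    rw [h4] at h3
    linarith
  have := discrim_le_zero key
  unfold discrim at this
  nlinarith

theorem kap_int (u a b : ℝ) : ∫ v in a..b, 1 / (1 + (u - v) ^ 2) ≤ Real.pi := by
  have h1 : ∫ v in a..b, 1 / (1 + (u - v) ^ 2) = ∫ x in (u - b)..(u - a), (1 + x ^ 2)⁻¹ := by
    have h2 := intervalIntegral.integral_comp_sub_left (a := a) (b := b) (fun x : ℝ => (1 + x ^ 2)⁻¹) u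
    rw [← h2]
    simp only [one_div]
  rw [h1, integral_inv_one_add_sq]
  have h3 := Real.arctan_lt_pi_div_two (u - a)
  have h4 := Real.neg_pi_div_two_lt_arctan (u - b)
  linarith

theorem kap_sum (w : ℝ) (M : ℕ) : ∑ m ∈ Finset.range M, 1 / (1 + ((m : ℝ) - w) ^ 2) ≤ 3 * Real.pi := by
  have hc : Continuous fun t : ℝ => 1 / (1 + (w - t) ^ 2) := by
    refine Continuous.div (by fun_prop) (by fun_prop) fun t => by positivity
  have h1 : ∀ m : ℕ, 1 / (1 + ((m : ℝ) - w) ^ 2) ≤ 3 * ∫ t in (m : ℝ)..((m + 1 : ℕ) : ℝ), 1 / (1 + (w - t) ^ 2) := by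
    intro m
    have hle : (m : ℝ) ≤ ((m + 1 : ℕ) : ℝ) := by push_cast; linarith
    have h2 : ∫ t in (m : ℝ)..((m + 1 : ℕ) : ℝ), (1 / 3 : ℝ) * (1 / (1 + ((m : ℝ) - w) ^ 2)) ≤
        ∫ t in (m : ℝ)..((m + 1 : ℕ) : ℝ), 1 / (1 + (w - t) ^ 2) := by
      apply intervalIntegral.integral_mono_on hle
      · exact intervalIntegrable_const
      · exact hc.intervalIntegrable _ _
      · intro t ht
        rw [Set.mem_Icc] at ht
        obtain ⟨ht1, ht2⟩ := ht
        push_cast at ht2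
        have hz1 : 0 < 1 + ((m : ℝ) - w) ^ 2 := by positivity
        have hz2 : 0 < 1 + (w - t) ^ 2 := by positivity
        rw [div_mul_div_comm, div_le_div_iff₀ (by positivity) hz2]
        have ht3 : (t - m) ^ 2 ≤ 1 := by nlinarith
        nlinarith [sq_nonneg ((m : ℝ) - w - (t - m)), sq_nonneg ((m : ℝ) - w)]
    rw [intervalIntegral.integral_const, smul_eq_mul] at h2
    push_cast at h2 ⊢
    linarith
  calc ∑ m ∈ Finset.range M, 1 / (1 + ((m : ℝ) - w) ^ 2)
      ≤ ∑ m ∈ Finset.range M, 3 * ∫ t in (m : ℝ)..((m + 1 : ℕ) : ℝ), 1 / (1 + (w - t) ^ 2) :=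
        Finset.sum_le_sum fun m _ => h1 m
    _ = 3 * ∫ t in ((0 : ℕ) : ℝ)..(M : ℝ), 1 / (1 + (w - t) ^ 2) := by
        rw [← Finset.mul_sum]
        congr 1
        exact intervalIntegral.sum_integral_adjacent_intervals
          (f := fun t : ℝ => 1 / (1 + (w - t) ^ 2)) (a := fun k : ℕ => (k : ℝ)) (n := M)
          (fun k _ => hc.intervalIntegrable _ _)
    _ ≤ 3 * Real.pi := by
        have := kap_int w ((0 : ℕ) : ℝ) (M : ℝ)
        linarith

theorem intOn_bdd {f : ℝ → ℝ} (hm : Measurable f) {a b M : ℝ} (hM : ∀ v ∈ Set.Ioc a b, |f v| ≤ M) :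
    IntegrableOn f (Set.Ioc a b) := by
  apply Measure.integrableOn_of_bounded (M := M)
  · rw [Real.volume_Ioc]; exact ENNReal.ofReal_ne_top
  · exact hm.aestronglyMeasurable
  · rw [ae_restrict_iff' measurableSet_Ioc]
    exact Filter.Eventually.of_forall fun v hv => by rw [Real.norm_eq_abs]; exact hM v hv

theorem intOn_bdd_mul {f g : ℝ → ℝ} (hm : Measurable f) (hg : Continuous g) {a b M : ℝ}
    (hM : ∀ v ∈ Set.Ioc a b, |f v| ≤ M) : IntegrableOn (fun v => f v * g v) (Set.Ioc a b) := by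
  obtain ⟨M', hM'⟩ := isCompact_Icc.exists_bound_of_continuousOn (s := Set.Icc a b) hg.continuousOn
  apply intOn_bdd (M := M * M') (hm.mul hg.measurable)
  intro v hv
  rw [Pi.mul_apply, abs_mul]
  have h1 := hM v hv
  have h2 := hM' v (Set.Ioc_subset_Icc_self hv)
  rw [Real.norm_eq_abs] at h2
  exact mul_le_mul h1 h2 (abs_nonneg _) ((abs_nonneg _).trans h1)

theorem abs_Av_shift {h : ℕ → ℝ} (hh : ∀ n, |h n| ≤ 1) {x v b : ℝ} (hv : v ≤ b) :
    |Av h (v - x)| ≤ Real.exp ((b - x) / 2) :=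
  (abs_Av_le hh _).trans (Real.exp_le_exp.2 (by linarith))

theorem intOn_Av {h : ℕ → ℝ} (hh : ∀ n, |h n| ≤ 1) {g : ℝ → ℝ} (hg : Continuous g) (x a b : ℝ) :
    IntegrableOn (fun v => Av h (v - x) * g v) (Set.Ioc a b) :=
  intOn_bdd_mul ((measurable_Av h).comp (measurable_id.sub_const x)) hg
    fun _ hv => abs_Av_shift hh hv.2

theorem intOn_Av_sq {h : ℕ → ℝ} (hh : ∀ n, |h n| ≤ 1) {g : ℝ → ℝ} (hg : Continuous g) (x a b : ℝ) :
    IntegrableOn (fun v => Av h (v - x) ^ 2 * g v) (Set.Ioc a b) :=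
  intOn_bdd_mul (((measurable_Av h).comp (measurable_id.sub_const x)).pow_const 2) hg (M := Real.exp ((b - x) / 2) ^ 2)
    fun v hv => by
      rw [abs_pow]
      exact pow_le_pow_left₀ (abs_nonneg _) (abs_Av_shift hh hv.2) 2

theorem continuous_kap (u : ℝ) : Continuous fun v : ℝ => 1 / (1 + (u - v) ^ 2) := by
  refine Continuous.div (by fun_prop) (by fun_prop) fun t => by positivity

/-- the weighted Cauchy-Schwarz inequality for the coefficients -/
theorem coef_sq (K : Ker) {C : ℝ} (hC : 0 < C) {r : ℕ} {u : ℝ}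
    (hkf : ∀ v : ℝ, Vr r ≤ v → v ≤ 2 * Vr r → kf K r u v ≤ C / (1 + (u - v) ^ 2))
    {h : ℕ → ℝ} (hh : ∀ n, |h n| ≤ 1) (x : ℝ) :
    (∫ v in (Vr r)..(2 * Vr r), Av h (v - x) * kf K r u v) ^ 2 ≤
      (C * Real.pi) * ∫ v in (Vr r)..(2 * Vr r), Av h (v - x) ^ 2 * kf K r u v := by
  have hV : Vr r ≤ 2 * Vr r := by have := Vr_pos r; linarith
  have hint : ∫ v in (Vr r)..(2 * Vr r), kf K r u v ≤ C * Real.pi := by
    have h1 : ∫ v in (Vr r)..(2 * Vr r), kf K r u v ≤ ∫ v in (Vr r)..(2 * Vr r), C * (1 / (1 + (u - v) ^ 2)) := by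
      apply intervalIntegral.integral_mono_on hV
      · exact (continuous_kf K r u).intervalIntegrable _ _
      · exact ((continuous_kap u).const_mul C).intervalIntegrable _ _
      · intro v hv
        rw [Set.mem_Icc] at hv
        have := hkf v hv.1 hv.2
        rw [mul_one_div]
        exact this
    rw [intervalIntegral.integral_const_mul] at h1
    have h2 := kap_int u (Vr r) (2 * Vr r)
    exact h1.trans (mul_le_mul_of_nonneg_left h2 hC.le)
  rw [intervalIntegral.integral_of_le hV, intervalIntegral.integral_of_le hV]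
  rw [intervalIntegral.integral_of_le hV] at hint
  have h3 := cs_weight (μ := volume.restrict (Set.Ioc (Vr r) (2 * Vr r))) (f := fun v => Av h (v - x)) (k := kf K r u)
    (fun v => kf_nonneg K r u v) ((continuous_kf K r u).integrableOn_Ioc) (intOn_Av hh (continuous_kf K r u) x _ _)
    (intOn_Av_sq hh (continuous_kf K r u) x _ _)
  refine h3.trans (mul_le_mul_of_nonneg_right hint ?_)
  exact integral_nonneg fun v => mul_nonneg (sq_nonneg _) (kf_nonneg K r u v)

end Pool.Agent.Helper66.LW
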