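import Pool.Agent.Helper11.LW.Gibbs

/-!
# Sudakov lower bound for Rademacher sums on the cube
-/

set_option autoImplicit false

namespace Pool.Agent.Helper66.LW

open Finset Pool.Agent.Helper5.RM Pool.Agent.Helper96.AF Pool.Agent.Helper96.CM Pool.Agent.Helper11.LW

private theorem log_chord {N q : ℝ} (hN : 16 ≤ N) (hq : 1 / N ≤ q) (hq1 : q ≤ 1) :
    Real.log N * (q - 1 / 16) ≤ Real.log (N * q) := by
  have hN0 : 0 < N := by linarith
  have hN1 : 0 < N - 1 := by linarith
  set l := (N * q - 1) / (N - 1) with hl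
  have hNq : 1 ≤ N * q := by
    rw [div_le_iff₀ hN0] at hq
    linarith
  have hl0 : 0 ≤ l := div_nonneg (by linarith) hN1.le
  have hl1 : l ≤ 1 := by
    rw [hl, div_le_one hN1]
    nlinarith
  have hc := strictConcaveOn_log_Ioi.concaveOn.2 (show (1 : ℝ) ∈ Set.Ioi 0 by simp) (show N ∈ Set.Ioi (0 : ℝ) from hN0)
    (show 0 ≤ 1 - l by linarith) hl0 (by ring)
  have e1 : (1 - l) • (1 : ℝ) + l • N = N * q := by
    simp only [smul_eq_mul]
    have : l * (N - 1) = N * q - 1 := by rw [hl]; field_simp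
    linarith
  rw [e1] at hc
  simp only [smul_eq_mul, Real.log_one, mul_zero, zero_add] at hc
  have hlogN : 0 ≤ Real.log N := Real.log_nonneg (by linarith)
  have h2 : q - 1 / 16 ≤ l := by
    have h3 : q - 1 / N ≤ l := by
      rw [hl, le_div_iff₀ hN1]
      have h4 : (q - 1 / N) * (N - 1) = (N * q - 1) - (N * q - 1) / N := by field_simp
      have h5 : 0 ≤ (N * q - 1) / N := div_nonneg (by linarith) hN0.le
      linarith
    have h6 : 1 / N ≤ 1 / 16 := one_div_le_one_div_of_le (by norm_num) hN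
    linarith
  nlinarith

private theorem point_low {S J : Finset ℕ} {a : ℕ → ℕ → ℝ} {b : ℝ} {F : Finset ℕ → ℝ} (hb : 0 < b) (hJ : 16 ≤ J.card)
    {T : Finset ℕ} (hT : T ⊆ S) (hF : ∀ T ⊆ S, ∀ i ∈ J, SS S a T i ≤ F T) :
    1 / (J.card : ℝ) * ∑ i ∈ J, SS S a T i + Real.log J.card / b * (qw S J a b T - 1 / 16) ≤ F T := by
  have hne : J.Nonempty := by
    rw [← Finset.card_pos]; omega
  have hN : (16 : ℝ) ≤ J.card := by exact_mod_cast hJ
  have hN0 : (0 : ℝ) < J.card := by linarith
  set q := qw S J a b T with hq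
  have hqpos : 0 < q := Finset.sum_pos (fun i _ => by have := gw_pos (S := S) a b T hne i; positivity) hne
  have hq1 : q ≤ 1 := by
    rw [hq, qw, ← gw_sum a b T hne]
    refine Finset.sum_le_sum fun i hi => ?_
    have h1 : gw S J a b T i ≤ 1 := by
      rw [← gw_sum a b T hne]
      exact Finset.single_le_sum (f := fun i => gw S J a b T i) (fun j _ => (gw_pos a b T hne j).le) hi
    have h0 := gw_pos (S := S) a b T hne i
    nlinarith
  have hqN : 1 / (J.card : ℝ) ≤ q := by
    have h1 := sq_sum_le_card_mul_sum_sq (s := J) (f := fun i => gw S J a b T i)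
    rw [gw_sum a b T hne] at h1
    rw [div_le_iff₀ hN0, hq, qw]
    linarith
  -- a heavy index
  obtain ⟨i, hi, hwi⟩ : ∃ i ∈ J, q ≤ gw S J a b T i := by
    by_contra hcon
    push Not at hcon
    have h1 : ∑ i ∈ J, gw S J a b T i ^ 2 < ∑ i ∈ J, q * gw S J a b T i := by
      apply Finset.sum_lt_sum_of_nonempty hne
      intro i hi
      have h2 := hcon i hi
      have h0 := gw_pos (S := S) a b T hne i
      nlinarith
    rw [← Finset.mul_sum, gw_sum a b T hne, mul_one] at h1
    exact lt_irrefl _ h1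
  set m := 1 / (J.card : ℝ) * ∑ i ∈ J, SS S a T i with hm
  have hZ : (J.card : ℝ) * Real.exp (b * m) ≤ ZZ S J a b T := by
    have h1 : ∑ i ∈ J, Real.exp (b * m) * (1 + b * (SS S a T i - m)) ≤ ZZ S J a b T := by
      unfold ZZ
      refine Finset.sum_le_sum fun j _ => ?_
      have h2 : Real.exp (b * SS S a T j) = Real.exp (b * m) * Real.exp (b * (SS S a T j - m)) := by
        rw [← Real.exp_add]; congr 1; ring
      rw [h2]
      apply mul_le_mul_of_nonneg_left _ (Real.exp_pos _).le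
      linarith [Real.add_one_le_exp (b * (SS S a T j - m))]
    have h3 : ∑ i ∈ J, Real.exp (b * m) * (1 + b * (SS S a T i - m)) = (J.card : ℝ) * Real.exp (b * m) := by
      rw [← Finset.mul_sum, Finset.sum_add_distrib, ← Finset.mul_sum, Finset.sum_sub_distrib, Finset.sum_const, Finset.sum_const,
        nsmul_eq_mul, nsmul_eq_mul, mul_one]
      have h4 : (J.card : ℝ) * m = ∑ i ∈ J, SS S a T i := by rw [hm]; field_simp
      rw [h4]; ring
    linarith
  have hZpos := ZZ_pos (S := S) a b T hne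
  have h5 : (J.card : ℝ) * q * Real.exp (b * m) ≤ Real.exp (b * SS S a T i) := by
    have h6 : q * ZZ S J a b T ≤ Real.exp (b * SS S a T i) := by
      have h7 := mul_le_mul_of_nonneg_right hwi hZpos.le
      have h8 : gw S J a b T i * ZZ S J a b T = Real.exp (b * SS S a T i) := by
        unfold gw; field_simp
      linarith
    nlinarith [mul_le_mul_of_nonneg_left hZ hqpos.le]
  have h6 : Real.log (J.card * q) + b * m ≤ b * SS S a T i := by
    have h7 := Real.log_le_log (by positivity) h5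
    rwa [Real.log_mul (by positivity) (Real.exp_pos _).ne', Real.log_exp, Real.log_exp] at h7
  have h7 := log_chord hN hqN hq1
  have h8 := hF T hT i hi
  have h9 : b * (m + Real.log J.card / b * (q - 1 / 16)) ≤ b * F T := by
    have h10 : b * (m + Real.log J.card / b * (q - 1 / 16)) = b * m + Real.log J.card * (q - 1 / 16) := by
      field_simp
    have h11 := mul_le_mul_of_nonneg_left h8 hb.le
    linarith
  exact le_of_mul_le_mul_left h9 hb

/-- Sudakov's lower bound: the mean of any upper bound of the maximum -/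
theorem sudakov : ∃ c : ℝ, 0 < c ∧ ∀ (S J : Finset ℕ) (a : ℕ → ℕ → ℝ) (D : ℝ), 0 < D → 16 ≤ J.card →
    (∀ i ∈ J, ∀ j ∈ J, i ≠ j → D ^ 2 ≤ ∑ p ∈ S, (a i p - a j p) ^ 2) →
    (∀ i ∈ J, ∀ p ∈ S, |a i p| * Real.sqrt (Real.log J.card) ≤ c * D) →
    ∀ F : Finset ℕ → ℝ, (∀ T ⊆ S, ∀ i ∈ J, ∑ p ∈ S, sg T p * a i p ≤ F T) →
      c * D * Real.sqrt (Real.log J.card) ≤ av S F := by
  refine ⟨1 / 100, by norm_num, fun S J a D hD hJ hsep ha F hF => ?_⟩
  have hne : J.Nonempty := by
    rw [← Finset.card_pos]; omega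
  have hN : (16 : ℝ) ≤ J.card := by exact_mod_cast hJ
  have hlog : 0 < Real.log J.card := Real.log_pos (by linarith)
  have hs := Real.sqrt_pos.2 hlog
  set L := Real.sqrt (Real.log J.card) with hL
  have hLL : L * L = Real.log J.card := Real.mul_self_sqrt hlog.le
  set b := L / D with hb
  have hbpos : 0 < b := div_pos hs hD
  have hm : ∀ i ∈ J, ∀ p ∈ S, b * |a i p| ≤ 1 / 100 := by
    intro i hi p hp
    have h1 := ha i hi p hp
    have h2 : b * |a i p| = |a i p| * L / D := by rw [hb]; ring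
    rw [h2, div_le_iff₀ hD]
    exact h1
  have h1 := gibbs_low hbpos hne hsep hm hF
  have h2 : b * D ^ 2 = D * L := by rw [hb]; field_simp
  have h3 : Real.log J.card / b = D * L := by
    rw [hb, ← hLL]; field_simp
  have h4 : av S (fun T => 1 / (J.card : ℝ) * ∑ i ∈ J, SS S a T i + Real.log J.card / b * (qw S J a b T - 1 / 16)) ≤ av S F :=
    av_mono fun T hT => point_low hbpos hJ hT hF
  have h5 : av S (fun T => 1 / (J.card : ℝ) * ∑ i ∈ J, SS S a T i + Real.log J.card / b * (qw S J a b T - 1 / 16)) =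
      Real.log J.card / b * (av S (qw S J a b) - 1 / 16) := by
    rw [av_add, av_mul_left, av_mul_left, av_sum]
    have h6 : ∑ i ∈ J, av S (fun T => SS S a T i) = 0 := Finset.sum_eq_zero fun i _ => av_SS a i
    rw [h6, mul_zero, zero_add]
    congr 1
    have h7 : av S (fun T => qw S J a b T - 1 / 16) = av S (fun T => qw S J a b T + (-(1 / 16))) :=
      av_congr fun T _ => by ring
    rw [h7, av_add, av_const]
    ring
  rw [h5, h3] at h4
  rw [h2] at h1
  have hDL : 0 < D * L := mul_pos hD hs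
  nlinarith

/-- the form with the free energy -/
theorem gibbs : ∃ c0 : ℝ, 0 < c0 ∧ ∀ (S J : Finset ℕ) (a : ℕ → ℕ → ℝ) (D : ℝ), 0 < D → 16 ≤ J.card →
    (∀ i ∈ J, ∀ j ∈ J, i ≠ j → D ^ 2 ≤ ∑ p ∈ S, (a i p - a j p) ^ 2) →
    (∀ i ∈ J, ∀ p ∈ S, |a i p| * Real.sqrt (Real.log J.card) ≤ c0 * D) →
    ∀ β : ℝ, 0 < β → c0 * D * Real.sqrt (Real.log J.card) ≤
      av S (fun T => 1 / β * Real.log (∑ i ∈ J, Real.exp (β * ∑ p ∈ S, sg T p * a i p))) := by
  obtain ⟨c, hc, h⟩ := sudakov
  refine ⟨c, hc, fun S J a D hD hJ hsep ha β hβ => ?_⟩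
  apply h S J a D hD hJ hsep ha
  intro T _ i hi
  have h1 := SS_le_FE (S := S) a hβ T hi
  unfold FE ZZ SS at h1
  rw [div_eq_mul_one_div, mul_comm] at h1
  exact h1

end Pool.Agent.Helper66.LW
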